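import Pool.Agent.Helper808.OddBox.Main

set_option autoImplicit false

namespace Pool.Agent.Results.MP_8c362f_co.EntropyBound

open Pool.Agent.Helper808.OddBox

/-- **Main result.** (1) For odd `n ≥ 5`, a partition of `[n]^d` into `k` odd proper boxes has
`k ^ n * (n - 2) ^ ((n - 2) d) ≥ n ^ (n d)`, that is `k ≥ (n / (n - 2) ^ ((n - 2) / n)) ^ d`.
(2) `f_odd(5, d) ≥ 2.586 ^ d` and (3) `f_odd(7, d) ≥ 2.217 ^ d` for every `d`. -/
theorem result :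
    (∀ n d k : ℕ, Odd n → 5 ≤ n → ∀ P : Fin k → Fin d → Finset (Fin n),
      IsOddPartition n d k P → n ^ (n * d) ≤ k ^ n * (n - 2) ^ ((n - 2) * d)) ∧
    (∀ d : ℕ, (2.586 : ℝ) ^ d ≤ fodd 5 d) ∧
    (∀ d : ℕ, (2.217 : ℝ) ^ d ≤ fodd 7 d) :=
  bounds

end Pool.Agent.Results.MP_8c362f_co.EntropyBound
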